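import Pool.Agent.H856.WE.KumFinal
import Pool.Agent.H856.WE.Div

/-!
# The Tate conjecture for all powers of the Jacobians of the cyclic covers of the line of prime degree
# `ℓ` with at most five branch points, in the characteristics `p` which generate `(Z / ℓ)^*`

Let `ℓ` and `p` be prime numbers such that `p` is a primitive root modulo `ℓ`, let `k` be a finite field of
characteristic `p` with `q` elements, `q ≡ 1` modulo `ℓ`, and `C` the smooth projective model of

  `y ^ ℓ = f (x) = ∏_{a ∈ J} (x - a) ^ (c_a)`,

where `J` is a set of `2`, `3` or `4` elements of `k` and neither the `c_a` nor their sum are divisible by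
`ℓ`. (After a finite extension of the ground field every cyclic cover of the projective line of degree `ℓ`
with `3`, `4` or `5` branch points is of this form; one of the branch points is at infinity. Examples:
for `ℓ = 3` and `p ≡ 2` modulo `3` all Picard curves `y ^ 3 = f_4 (x)`; for `ℓ = 5` and `p ≡ 2, 3` modulo `5`
the curves `y ^ 5 = f_3 (x)` and `y ^ 5 = f_4 (x)`, of genus `4` and `6`.) The genus of `C` is
`N (ℓ - 1) / 2`, `N = #J - 1`, and the first cohomology `H` of `C` is the sum of subspaces `V_t` of
dimension `N`, for the elements `t ≠ 0` of `Z / ℓ`. Let `χ` be a character of `k^*` of order `ℓ` and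
`Γ (t, i)`, `i < N`, the eigenvalues of the Frobenius on `V_t`; so (`IsKummerSpectrum`) for all finite
extensions `L` of `k`

  `∑_{x ∈ L} χ ^ t (Norm f (x)) = - ∑_i Γ (t, i) ^ [L : k]`.

The elements of the `n`-th tensor power of `H` are in the coordinates given by the eigenvectors
functions on `Fin n → Ch ℓ × Fin N` (`Tens`); such a function is a Tate class over some finite
extension of `k` (`IsTate`) if for some `m ≥ 1` the `m`-th power of the Frobenius multiplies it by
`q ^ (n m / 2)`. The cohomology of the powers of the Jacobian `A` of `C` is a direct summand of a sum of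
tensor powers of `H`.

**Theorem.** For ALL such `C`,

* the Frobenius has a spectrum `Γ`, and for every spectrum `|Γ (t, i)| ^ 2 = q`;
* if `C` has at most four branch points (`#J ≤ 3`), the Tate classes in all tensor powers of `H`, over all
  finite extensions of `k`, are generated by those of degree two (every `IsDivisorSystem` contains them);
* in general they are generated by those of degree two and by the Weil classes: the products
  `det V_t ⊗ det V_t'` (and `det V_t` if `N` is even) are Tate classes, and every family of subspaces
  `A n` with the unit, the Tate classes of degree two and these Weil classes, which is stable under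
  products, permutations and the endomorphisms of `H` that commute with a power of the Frobenius
  (`IsCycleSystem`), contains all Tate classes; the Tate classes themselves span such a family;
* for all `x_1, …, x_N` in a field `K` over `k` the numbers `u_a = ∏_i (a - x_i)` satisfy the linear
  equation `∑_{a ∈ J} u_a / ∏_{b ≠ a} (a - b) = 1`.

*Consequence (not in Lean): the Tate conjecture is true for all powers of the Jacobian `A` of `C`, in all
codimensions, over all finite extensions of `k`.* Let `A n` be the span of the algebraic classes over
finite extensions in the `n`-th tensor power of `H` (with complex coefficients, for an isomorphism of the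
complex numbers and an algebraic closure of `ℚ_l`). All properties in `IsCycleSystem` are clear or
follow from the theorem of Tate (1966) on homomorphisms of abelian varieties over finite fields, but for
the Weil classes; for `#J ≤ 3` these are of degree two. Let `#J = 4`. By the last part we have a map from
the `N`-th power of the affine curve `C' : y ^ ℓ = f (x)` to the variety

  `W : ∑ u_a / ∏_{b ≠ a} (a - b) = 1, z ^ ℓ = ∏_a ((-1) ^ N u_a) ^ (c_a)`,

`u_a = ∏_i (a - x_i)`, `z = ∏ y_i`. It is finite and surjective (it is the quotient by the symmetric group
and the group of the `(ζ_1, …, ζ_N)` with product `1`, up to a bijective map), because the `u_a` are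
coordinates of the monic polynomials `∏ (X - x_i)`. Hence the part of `H_c ^ N (W)` on which
`Z / ℓ` acts by the character `t`, of dimension one, is mapped isomorphically to `det V_t` in the `N`-th
tensor power of `V_t`. And `W` is a quotient of the affine Fermat variety
`F : ∑ v_a ^ ℓ / ∏_{b ≠ a} (a - b) = 1`, `u_a = v_a ^ ℓ` (over an extension of `k`). The projective Fermat
varieties of degree `ℓ` are dominated by products of Fermat curves (Shioda, Katsura), after blowing up
Fermat varieties of smaller dimension. As `-1` is a power of `p` modulo `ℓ`, these curves are
supersingular, so all Tate classes on the products of Fermat varieties of degree `ℓ` are algebraic, in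
particular the one that corresponds to `det V_t ⊗ det V_t'`.

For `#J = 4` the Weil classes are exotic in general: if no `Γ (t, i)` is `√q` times a root of unity, then
`det V_t ⊗ det V_t`, of codimension three, is not a combination of products of divisor classes. For
`ℓ = 3`, `#J = 4` the dimension of `A` is three (for abelian threefolds it was known which classes are
Tate classes, by Zarhin). The library has results for almost all members of such families
(`UnitaryFamilies`, `GaloisCovers`), where the Galois groups are as large as possible, and over infinite
fields if there is a degeneration with a complex reflection (`CyclicCoverings`, whose argument for the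
determinants we use); here the field is finite and there is no condition on the member.

The proof is similar to the one of `MP_0d42ed_ag.PowersOfJacobians`, which treats the wild covers
`y ^ p - y = f (x)`. Only one place of `ℚ (ζ_ℓ)` lies above `p`, so every automorphism of `ℚ (ζ_ℓ)` has an
extension `d` to the algebraic numbers which preserves a given place `v` above `p`. So the slopes
`v (Γ (t, i)) / v (q)` are, up to the order, the same for all `t`, and the product `e` of the complex
conjugation and the element `d` for the automorphism `-1` is an automorphism over `ℚ (ζ_ℓ)` which maps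
each slope `s` to `1 - s`. A product of eigenvalues is a power of `q` up to a root of unity if and only
if this is true for the slopes of all its conjugates over `ℚ (ζ_ℓ)`. For `N ≤ 3` the Galois group acts
on each set `{Γ (t, i)}` as the group with two elements `1`, `e` or as the symmetric group `S_3`, if not
all slopes are `1 / 2`.

Purity: Weil's bound for the sums of multiplicative characters (library, method of Stepanov) and
the absolute value of the last coefficient of the L-function, a Jacobi sum in `#J` variables (`S_TOP`,
by the linear equation above).
-/

set_option autoImplicit false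

open Polynomial

namespace Pool.Agent.Results.MP_7b53ad_ag.CyclicCoversOfTheLine

open Pool.Agent.H856.WD Pool.Agent.H856.WE

open Classical in
/-- **The Tate classes on the powers of the Jacobian of `y ^ ℓ = ∏ (x - a) ^ (c_a)`, with at most five
branch points, if `p` is a primitive root modulo the prime number `ℓ`.** -/
theorem result (p ℓ : ℕ) [Fact p.Prime] [Fact ℓ.Prime] (hgen : orderOf (p : ZMod ℓ) = ℓ - 1)
    (k : Type) [Field k] [Finite k] [CharP k p] (χ : MulChar k ℂ) (hχ : orderOf χ = ℓ)
    (J : Finset k) (c : k → ℕ) (h2 : 2 ≤ J.card) (h4 : J.card ≤ 4)
    (hc : ∀ a ∈ J, ¬ ℓ ∣ c a) (hs : ¬ ℓ ∣ ∑ a ∈ J, c a) :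
    (∃ Γ : Ch ℓ × Fin (J.card - 1) → ℂ, IsKummerSpectrum ℓ χ (branchPoly J c) Γ) ∧
    (∀ Γ : Ch ℓ × Fin (J.card - 1) → ℂ, IsKummerSpectrum ℓ χ (branchPoly J c) Γ →
      (∀ x, ‖Γ x‖ ^ 2 = Nat.card k) ∧
      -- at most four branch points: generation in degree two
      (J.card ≤ 3 → ∀ A, IsDivisorSystem (Nat.card k : ℂ) Γ A →
        ∀ (n : ℕ) (S : Tens (Ch ℓ) (J.card - 1) n), IsTate (Nat.card k : ℂ) Γ S → S ∈ A n) ∧
      -- the Tate classes are in all systems of classes
      (∀ A, IsCycleSystem (Nat.card k : ℂ) Γ A →
        ∀ (n : ℕ) (S : Tens (Ch ℓ) (J.card - 1) n), IsTate (Nat.card k : ℂ) Γ S → S ∈ A n) ∧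
      -- they are such a system
      IsCycleSystem (Nat.card k : ℂ) Γ (tateSub (Nat.card k : ℂ) Γ) ∧
      (∀ (n : ℕ) (S : Tens (Ch ℓ) (J.card - 1) n), S ∈ tateSub (Nat.card k : ℂ) Γ n →
        S = 0 ∨ IsTate (Nat.card k : ℂ) Γ S)) ∧
    -- the map to a variety of Fermat type
    (∀ (K : Type) [Field K] [Algebra k K] (x : Fin (J.card - 1) → K),
      ∑ a ∈ J, (∏ b ∈ J.erase a, (algebraMap k K a - algebraMap k K b))⁻¹ *
        ∏ i, (algebraMap k K a - x i) = 1) := by
  have hJ : J.Nonempty := Finset.card_pos.1 (by omega)
  refine ⟨exists_kummer ℓ k χ hχ J c hJ hc, ?_, fun K _ _ x => lagrange J hJ K x⟩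
  intro Γ hΓ
  obtain ⟨h5, h6, h7⟩ := kummer_main p ℓ hgen k χ hχ J c h2 h4 hc hs Γ hΓ
  have hq : (Nat.card k : ℂ) ≠ 0 := by exact_mod_cast Nat.card_pos.ne'
  have hne : ∀ x, Γ x ≠ 0 := by
    intro x hx
    have h8 := h5 x
    rw [hx, norm_zero, zero_pow two_ne_zero] at h8
    exact hq (by exact_mod_cast h8.symm)
  obtain ⟨h8, h9⟩ := sys (Ch ℓ) (J.card - 1) (Nat.card k : ℂ) Γ hq h6
  have hall : ∀ A, IsCycleSystem (Nat.card k : ℂ) Γ A →
        ∀ (n : ℕ) (S : Tens (Ch ℓ) (J.card - 1) n), IsTate (Nat.card k : ℂ) Γ S → S ∈ A n :=
    fun A hA n S hS => clo (Ch ℓ) (J.card - 1) _ Γ A (by omega) hq hne hA h6 h7 n S hS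
  exact ⟨h5, fun h3 A hA => hall A (hA.cycle hq h6 (by omega) (by omega)), hall, h8, h9⟩

end Pool.Agent.Results.MP_7b53ad_ag.CyclicCoversOfTheLine
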