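import Mathlib
import Pool.Graph.R_pool_sql_team_seeded_843ab51a.V1168.EV.Span
import Pool.Agent.H855.CM.Split

/-!
# The Tate conjecture over finitely generated fields for the products of **every** abelian variety with
abelian varieties outside of finitely many exceptional slope vectors (all CM fields)

Let `K i` (`i` in any set `I`) be CM fields, for instance **all** CM fields, and let `V i` be the space of
the odd rational functions on the complex embeddings of `K i`, a representation of the automorphisms of
`ℂ`. We fix an isomorphism `ν` of the algebraic closure of `ℚ_p` with `ℂ`; it defines a `p`-adic
valuation `v` of `ℂ` with `v p = 1`. The slope vector of a Weil number `π` for `p ^ a` in `K i` is the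
function `x φ = 2 v (φ π) - a` on the complex embeddings `φ` of `K i` (`slopeVector`); it is odd: its
values at conjugate embeddings are opposite.

Let `π j` (`j` in a finite set `J`) be Weil numbers for the same `q = p ^ a`, any `a > 0`, which generate
fields `L j`, each of which is one of the `K i`. We suppose that the family is *independent*
(`IsIndependent`): the slope vectors `x j` and their translates satisfy no nontrivial linear relation
with rational coefficients (`NoSlopeRelations`). A sufficient condition: the
fields `L j` are good (`IsGoodField`: the odd functions are irreducible, or `[L j : ℚ]` is twice an odd
prime number, or the maximal real subfield has a place of coprime degree, `HasCoprimePlace`), their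
normal closures are different, no imaginary quadratic field is contained in two of them, and the slopes
are good (`HasGoodSlopes`).

A number `ρ` comes from the finite set `Ω` of complex numbers (`From p Ω`) if it is not zero and a power
of it is the product of a power of a conjugate of an element of `Ω`, or of `1`, and of a power of `p`.

**The theorem: there is a set `E` of at most `|Ω|` pairs `(i, v)`, where `v` is an odd function, not zero,
on the complex embeddings of `K i`, such that for all `a` and all independent families `π j`, for which
no vector of `E` is a combination of the slope vectors `x j`, the following statements about finitely
generated fields of characteristic `p` and of characteristic zero are true.** The set `E` depends only on `ν`, `Ω` and the fields `K i`. If `Ω` is stable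
under the automorphisms of `ℂ` and its elements are nonzero and lie in CM fields or totally real fields
(the set of all Frobenius eigenvalues; `IsStable`), then moreover `∑ w i ≤ |Ω|`, the sum over the
elements `(i, v)` of `E`; here `w i` is twice a lower bound for the dimensions of the nonzero stable
subspaces of `V i`, so `w i = [K i : ℚ]` if `V i` is irreducible, in particular if `K i` is good and
contains no imaginary quadratic field, and `w i = 2` is always possible (`IsWeight`, `IsSmall`).

A vector `v` on the embeddings of a field `K` is a combination of the slope vectors (`IsCombination`)
if it is the sum of the images of the `x j` under equivariant maps, that is,
`v φ = ∑ t φ (j, ψ) * x j ψ` with rational numbers `t φ (j, ψ)` which are invariant under the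
automorphisms of `ℂ`, odd in `ψ`, and zero if the fields `K` and `L j` are unrelated (there are no
nonzero equivariant maps between their odd functions). So

* if `K i` is unrelated to all the `L j` the condition on the elements `(i, v)` of `E` is satisfied:
  apart from at most `|Ω|` fields, and the fields related to them, there are **no** exceptional abelian
  varieties;
* if the `L j` are pairwise unrelated and `K i` is one of them, `L j₀`, the condition is that the slope
  vector `x j₀` is not mapped to `v` by an endomorphism of the representation `V i`; if `V i` is
  absolutely irreducible, that `x j₀` is not on the line of `v`.

**Characteristic `p`.** Let `f j` be monic polynomials whose complex roots are conjugates of `π j`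
(`IsPolyOf`), for instance the characteristic polynomials of Frobenius of the abelian varieties in the
isogeny classes of the `π j` over the field with `q` elements. Let `A` be an abelian variety over the
field with `Q = q ^ s` elements which is isogenous to a product of powers of abelian varieties coming
from the field with `q` elements, with characteristic polynomials `f j` (`IsAbelian`). Let `X` be **any**
abelian variety over a field `k` which is finitely generated over the field with `Q` elements and in
which it is algebraically closed (for instance over the finite field itself; or any other smooth
projective variety), such that the eigenvalues of the Frobenius of the field of constants on the spaces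
of the invariants of the geometric fundamental group (of an open part of a model of `k`) in the
cohomology of `X` come from `Ω` (`DiagFrom`; for finite `k` these are all Frobenius eigenvalues). Here
`H^(2 j)` is always the space of these geometric invariants; the invariants of the Galois group of `k`
are the elements fixed by the Frobenius of the field of constants. Then there are products `D t` of `c t`
divisor classes on `A`, finitely many (independent of `X`), such that for all `j` every invariant element
of `H^(2 j)(A × X, ℚ_ℓ(j))` is in a unique way the sum of the products of the `D t` with invariant
elements of `H^(2 (j - c t))(X, ℚ_ℓ(j - c t))`, and **the invariant classes of degree `j` on `A × X` are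
combinations of classes of cycles if and only if those of degree `j - k` on `X` are, for all `k` with
`0 ≤ k ≤ dim A`** (`TateSpanTimes`). As all `s` are allowed this is true over all finite extensions of
the field of constants.

**Characteristic zero.** Let `A` be an abelian variety over a finitely generated field `k` of
characteristic zero, with good reduction at ONE closed point of a model of `k`, the residue field having
`q = p ^ a` elements, such that the characteristic polynomial of the Frobenius element `γ` on the Tate
module `V = V_ℓ (A)`, `ℓ ≠ p`, is the product of the minimal polynomials of the `π j`. Let `U` be **any**
abelian variety over `k`, and `M = H^b(U, ℚ_ℓ)(c)` (or any other representation of `Γ`), such that the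
eigenvalues of `γ` on `M` are roots of a rational polynomial, not zero, all of whose complex roots come
from `Ω`. Then (`ClassesSplit`) **the classes in `H^j(A ^ r) ⊗ M` which are fixed by an open subgroup of `Γ` are
zero for odd `j`, and linear combinations of products of `m` Tate classes of degree two on `A ^ r` (that
is, of divisor classes, by Faltings) and of Tate classes in `M(-m)` for `j = 2 m`.** The classes in
`H^j(A ^ r) ⊗ M` are the alternating maps of `j` variables from `V ^ r` to `M`. So for all these `A` and `U` **the Tate conjecture for
`A ^ r × U` (all `r`, over all finite extensions, all codimensions) is equivalent to the Tate conjecture
for `U`.** The hypotheses on `V` (`IsPolarised`) are the Weil pairing and the semisimplicity (Faltings).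
Nothing is assumed on the semisimplicity of `M`.

**Such a set `Ω` exists for every `X` and every `U`** with good reduction at the point: take one root of
each irreducible factor of the characteristic polynomials of Frobenius on the cohomology. For instance,
the Tate conjecture is true for `A × X` and `A ^ r × U` if `X` and `U` are abelian varieties of dimension
at most three. (Exceptions are necessary: if `X = A` or `U = A` then there are Tate classes in
`H^1(A) ⊗ H^1(X)(1)`.)

The result `EveryVarietyTimes` of an earlier run for this problem is about one given family with one
Weil number in each of the `K i`, which are supposed to have pair flips (`PairFlips`; then the `V i` are
absolutely irreducible and pairwise unrelated), and its exceptional set depends on the Weil numbers.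
Here the CM fields are arbitrary, there can be several Weil numbers in one field, and all finite families
over all finite fields are considered at the same time.

The framework for characteristic `p`: the Chow ring and the ring of correspondences of `A`, with rational
coefficients, and the cohomology of `A` with complex coefficients (we choose an isomorphism of the
algebraic closure of `ℚ_ℓ` with `ℂ`), with the formal properties and the theorems of Tate on divisors and
of Kimura on the nilpotence of homologically trivial correspondences (`AbelianData`, `IsAbelian`); the
Chow groups `T^(2 j)(X, j) = CH^j(X)` and `T^(2 j)(A × X, j) = CH^j(A × X)` with rational coefficients,
and the geometric invariants `R^(2 j)(X, j)` and `R^(2 j)(A × X, j)` in the cohomology over the algebraic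
closure (they contain all Galois invariants), vector spaces over `L = ℚ_ℓ` (`IsLinear`), both with the
products with classes on `A`, the push-forward from `A × X` to `X`, the operation of the correspondences
from `A` to `A` and the Frobenius of the field of constants through `X` (`frobN`, `frobM`; `RelData`,
`IsRel`), and the cycle class map `ρ` (`IsRegulator`; `SpanData`, `IsSpanTheory`). The Frobenius
endomorphism of `A × X` is the product of the ones of `A` and `X`; the elements of `H^(2 j)` which it
multiplies by `Q ^ j` are the ones of `InvN` (for `X`) and `InvM` (for `A × X`), and the linear spans of
the classes of the cycles are `spanN` and `spanM`.

The proof. For `β` in `Ω` let `g` be the function `σ ↦ v (σ β) - v (conj (σ β))` of the automorphisms `σ` of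
`ℂ`, and `M` the rational representation generated by it. Suppose that for some family some power of a
number that comes from `β` is the corresponding power of a product of conjugates of the `π j`. Computing
valuations, `g` is, up to a factor and a translation, a value `σ ↦ ∑ n (j, ψ) x j (σ ψ)` of the relation
map of the family, where `n (j, ψ)` is the multiplicity of `ψ` minus the one of its conjugate. Suppose
`n ≠ 0`; then `g ≠ 0` as the family is independent. Compose the orthogonal projection to the
representation generated by `n` with the relation map: this is an equivariant map from the odd functions
of the family to `M` which is not zero, hence not zero on the odd functions of one of the fields `K i`,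
and there it is given by a vector `v`: the exceptional vector of `β` (`exists_vector`). As the image of
`V i` in `M` is isomorphic to a nonzero stable subspace of `V i`, `w i` is at most twice the dimension of
`M`, hence at most the number of the conjugates of `β` (`lowerBound_le`). If `g` is a value of the
relation map of **another** family then so are all elements of `M`, in particular the functions
`σ ↦ v (σ φ)`, and choosing the values orthogonal to the relations we see that `v` is a combination of
its slope vectors (`isCombination_of`). So outside of the exceptional vectors all `n` are zero
(`exists_vectorsX`): the products of conjugates of the `π j` which agree with an eigenvalue of `γ` on `M`
up to a root of unity are products of pairs of conjugate numbers (`forces_ofE`). So the components of a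
Tate class in the eigenspaces of `γ` are of this kind; by the semisimplicity, and as the angle rank is
maximal (`angle_ofE`), the Lie algebra of the endomorphisms of `V` which kill all the components is over
a finite extension a product of symplectic and general linear Lie algebras, and the first fundamental
theorem of invariant theory gives the result (`EV.split_of_forces` of the library).
For characteristic `p` the same argument shows that there are no multiplicative relations between a
number that comes from `Ω`, the roots of the `f j` and `q`, except for the trivial ones, and the theorem
follows from Tate's theorem on divisors and a nilpotence argument (`EV.tateSpanTimes` of the library).
-/

set_option autoImplicit false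

namespace Pool.Agent.Results.MP_7b53ad_ag.ExceptionalVectors

open NumberField Pool.Agent.V1168.EV Pool.Agent.H855.CM

/-- **For all abelian varieties `X` and `U` over finitely generated fields, of characteristic `p` and of
characteristic zero, whose Frobenius eigenvalues come from the finite set `Ω`, and all abelian varieties
`A` given by finite independent families of Weil numbers in the CM fields `K i`, outside of a set `E` of
at most `|Ω|` exceptional vectors: the Tate classes of degree `j` on `A × X` fixed by the Galois group are
algebraic if and only if those of degree `j - k` on `X` are, `0 ≤ k ≤ dim A`; and the Tate classes on
`A ^ r × U` are linear combinations of products of divisor classes on `A ^ r` and Tate classes on `U`.** -/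
theorem result {p : ℕ} [Fact p.Prime] (ν : PadicAlgCl p ≃+* ℂ) {I : Type}
    (K : I → Type) [∀ i, Field (K i)] [∀ i, NumberField (K i)] [∀ i, IsCMField (K i)]
    (w : I → ℕ) (hw : ∀ i, IsWeight (K i) (w i)) (Ω : Finset ℂ) :
    ∃ E : Finset (Σ i, ((K i →+* ℂ) → ℝ)), IsSmall w Ω E ∧
      ForAllFamilies ν K (fun _ q f => TateSpanTimes p Ω q f) E ∧ SplitOutside ν K Ω E := by
  obtain ⟨E, hE, h, h'⟩ := exists_vectors_both ν K w hw Ω
  exact ⟨E, hE, h _ fun J q f hq hR => tateSpanTimes hq hR, h'⟩

end Pool.Agent.Results.MP_7b53ad_ag.ExceptionalVectors
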