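import Pool.Agent.H856.WE.AvProof
import Pool.Agent.H856.WE.SplProof
import Pool.Agent.H856.WE.Pla2Proof
import Pool.Agent.H856.WE.Glu2Proof
import Pool.Agent.H856.WE.Div
import Pool.Agent.H856.WD.ActProof
import Pool.Agent.H856.WD.Clo

/-!
# The Tate classes on the powers of abelian varieties over finite fields with multiplication by a field
# with one place above `p`, of degree at least `2 g / 3`

Let `A` be an abelian variety of dimension `g` over the field with `q = p ^ a` elements, and `E` a
number field in the algebra of endomorphisms of `A` (with the same unit), which is Galois over `ℚ`, and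
totally real or CM. Then the first cohomology `H` of `A` is free over `E ⊗ ℚ_l`, of rank
`N = 2 g / [E : ℚ]`; the characteristic polynomial `P` of the Frobenius on `H` over `E ⊗ ℚ_l` is monic of
degree `N`, with coefficients in the ring of integers of `E`. With complex coefficients (for an
isomorphism of the complex numbers and an algebraic closure of `ℚ_l`) `H` is the sum of the subspaces
`V_φ`, for the embeddings `φ` of `E`; let `Γ (φ, i)`, `i < N`, be the eigenvalues of the Frobenius on
`V_φ`, the roots of the polynomial `φ (P)`. Their absolute value is `√q` (Weil).

**Theorem.** Suppose that `E` has only one place above `p` and that `N ≤ 3`.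

* If `N ≤ 2`, then the Tate classes in all tensor powers of `H`, over all finite extensions of the
  ground field, are generated by those of degree two (`IsDivisorSystem`: products, permutations and
  the endomorphisms of `H` which commute with a power of the Frobenius may be used).
* If `N = 3`, they are generated by those of degree two and by the Weil classes, the
  products of the determinants of two `V_φ`, `V_φ'` (`IsCycleSystem`).
* The Weil classes are Tate classes, and the Tate classes form a system with the same properties (so they
  are the smallest one).

The cohomology of the powers of `A` is a direct summand of a sum of tensor powers of `H`. Hence, by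
the theorem of Tate (1966), for `N ≤ 2` the Tate conjecture is true for all powers of `A`, in all
codimensions and over all finite extensions of the ground field: for all abelian varieties over finite
fields of characteristic `p` with multiplication by a totally real or CM field of degree
`[E : ℚ] ≥ g`, Galois over `ℚ`, with one place above `p`. For `N = 3` it is equivalent to the assertion that
the Weil classes, which have codimension three, are algebraic; this is true in the case of
`MP_7b53ad_ag.CyclicCoversOfTheLine` and `MP_0d42ed_ag.PowersOfJacobians` (with `E = ℚ (ζ_ℓ)` and
`ℚ (ζ_p)`).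

The dimension `g` is arbitrary, there is no condition on the slopes, the endomorphism algebra or the
Galois group of `P`, and the statement is about all members of the families of such abelian varieties
(they have positive dimension if `N ≥ 2` and `E` is CM or if `E` is totally real). For `E` of degree `1`
or `2` the dimension of `A` is at most three, and which classes are Tate classes is known by the work of
Zarhin. The results of the library on abelian varieties over finite fields are about almost all members,
or use the Galois group of the Weil numbers (`DecompositionGroups`, `CoprimePlace` of this run), or slopes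
(K3 type, almost ordinary). Here only the field `E` matters.

The proof. Let `v` be a place above `p` of the algebraic numbers. As there is only one place of `E` above
`p`, every automorphism of `E` has an extension `d` to the algebraic numbers which preserves `v` (the
minimal polynomials of the generators of `E` are irreducible over `ℚ_p`). So the slopes
`v (Γ (φ, i)) / v (q)` are, up to the order, the same for all `φ`; and if `d` extends the complex
conjugation of `E`, its product `e` with the complex conjugation fixes `E` and changes each slope `s` to
`1 - s`. A product of eigenvalues is a power of `q` up to a root of unity if and only if this is true for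
the slopes of all its conjugates over `E`. For `N ≤ 3` the Galois group over `E` acts on each set
`{Γ (φ, i)}` as the group `{1, e}` of order two or as the symmetric group `S_3`, if not all slopes
are `1 / 2`. The reflection representation of `S_3` is irreducible, and the relations between the different
`φ` come from isomorphisms of these representations which preserve the slopes up to the sign.
-/

set_option autoImplicit false

open Polynomial NumberField

namespace Pool.Agent.Results.MP_7b53ad_ag.FieldsWithOnePlace

open Pool.Agent.H856.WD Pool.Agent.H856.WE

open Classical in
/-- **The Tate classes on the powers of abelian varieties with multiplication by a field `E` with one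
place above `p`**: `c` is the complex conjugation of `E` (`E` is totally real or CM), `P` the
characteristic polynomial of the Frobenius over `E`, of degree at most three, and `Γ` its roots. -/
theorem result (p a : ℕ) [Fact p.Prime] (ha : 0 < a) (E : Type) [Field E] [NumberField E]
    [IsGalois ℚ E] (c : E →+* E)
    (hc : ∀ (φ : E →+* ℂ) (x : E), φ (c x) = (starRingEnd ℂ) (φ x))
    (hp : ∀ I J : Ideal (𝓞 E), I.IsPrime → J.IsPrime → (p : 𝓞 E) ∈ I → (p : 𝓞 E) ∈ J → I = J)
    (P : E[X]) (hP : P.Monic) (h1 : 1 ≤ P.natDegree) (h3 : P.natDegree ≤ 3)
    (hint : ∀ n, IsIntegral ℤ (P.coeff n)) (Γ : (E →+* ℂ) × Fin P.natDegree → ℂ)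
    (hΓ : ∀ φ : E →+* ℂ, P.map φ = ∏ i, (X - C (Γ (φ, i))))
    (hW : ∀ x, ‖Γ x‖ ^ 2 = (p : ℝ) ^ a) :
    -- rank at most two: generation in degree two
    (P.natDegree ≤ 2 → ∀ A, IsDivisorSystem ((p : ℂ) ^ a) Γ A →
      ∀ (n : ℕ) (S : Tens (E →+* ℂ) P.natDegree n), IsTate ((p : ℂ) ^ a) Γ S → S ∈ A n) ∧
    -- rank at most three: generation in degree two and by Weil classes
    (∀ A, IsCycleSystem ((p : ℂ) ^ a) Γ A →
      ∀ (n : ℕ) (S : Tens (E →+* ℂ) P.natDegree n), IsTate ((p : ℂ) ^ a) Γ S → S ∈ A n) ∧
    -- the Tate classes are such a system
    IsCycleSystem ((p : ℂ) ^ a) Γ (tateSub ((p : ℂ) ^ a) Γ) ∧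
    (∀ (n : ℕ) (S : Tens (E →+* ℂ) P.natDegree n), S ∈ tateSub ((p : ℂ) ^ a) Γ n →
      S = 0 ∨ IsTate ((p : ℂ) ^ a) Γ S) := by
  have hp0 : (p : ℂ) ≠ 0 := by exact_mod_cast (Fact.out : p.Prime).ne_zero
  have hq : (p : ℂ) ^ a ≠ 0 := pow_ne_zero _ hp0
  obtain ⟨h6, h7⟩ := av act_main pla2 glu2 spl p a P.natDegree E c P Γ ha h1 h3 hc hp hP rfl
    hint hΓ hW
  have hne : ∀ x, Γ x ≠ 0 := by
    intro x hx
    have h8 := hW x
    rw [hx, norm_zero, zero_pow two_ne_zero] at h8
    exact hq (by exact_mod_cast h8.symm)
  obtain ⟨h8, h9⟩ := sys (E →+* ℂ) P.natDegree ((p : ℂ) ^ a) Γ hq h6
  have hall : ∀ A, IsCycleSystem ((p : ℂ) ^ a) Γ A →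
      ∀ (n : ℕ) (S : Tens (E →+* ℂ) P.natDegree n), IsTate ((p : ℂ) ^ a) Γ S → S ∈ A n :=
    fun A hA n S hS => clo (E →+* ℂ) P.natDegree _ Γ A (by omega) hq hne hA h6 h7 n S hS
  exact ⟨fun h2 A hA => hall A (hA.cycle hq h6 h1 h2), hall, h8, h9⟩

end Pool.Agent.Results.MP_7b53ad_ag.FieldsWithOnePlace
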