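import Pool.Agent.H841.TT.Main

/-!
# The Tate conjecture for the powers of abelian varieties of type `A_1`

Let `A` be an abelian variety of dimension `g` over a number field (or over any finitely generated
field), `ℓ` a prime number which is invertible in the field, `K = ℚ_ℓ`, embedded in `ℂ`. A symplectic
basis for the Weil pairing of a polarization identifies the Tate module `V_ℓ(A)` with
`V = K ^ (2 g)` (`VV K g`), with the standard symplectic form `Om g K`. Let `𝔤` be the Lie algebra of the
image of the Galois group in the automorphisms of `V`. The cohomology of `A ^ n` in degree `d` is the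
space of the alternating forms in `d` variables in `V ^ n`, and the Tate classes (over the algebraic
closure of the field) are the forms of degree `2 r` which satisfy `IsTate`. A system of classes (`TSys`)
contains the Tate classes of degree two and is stable under cup products, pull-backs and push-forwards;
by the theorem of Faltings (of Tate, Zarhin and Mori in positive characteristic) the linear combinations
with coefficients in `ℚ_ℓ` of the classes of algebraic cycles are such a system.

**The abelian varieties.** Let `𝔰` be the complex Lie algebra generated by the matrices `X - c / 2` with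
`X` in `𝔤` and `c` the multiplier of `X` (`sympLie`); if the centre of `𝔤` consists of homotheties, this
is the complexification of the semisimple part of `𝔤`. `A` is of type `A_1` with the pattern `S`
(`IsTypeA1`) if `V ⊗ ℂ` is the direct sum of blocks `p j`, `𝔰` is the direct sum of Lie algebras
`sl_2(ℂ)`, one for each `i : I`, and the block `j` is the tensor product of the standard representations
`ℂ²` of the factors `i` with `S j i` and of a space on which `𝔰` acts trivially. There is no condition
on the sets `S j = {i | S j i}` (they may overlap in any way) and on the multiplicities. (If `𝔰` is of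
type `A_1` then all irreducible constituents of `V ⊗ ℂ` are of this form, since the weights are
minuscule.)

**Theorem.** All Tate classes on all powers of `A` belong to the system if and only if

* the Tate classes of degree four on `A × A` belong to the system, and
* for each set `N` of `2 r` blocks, `r ≥ 3`, such that every `i` belongs to an even number of the sets
  `S j`, `j ∈ N`, the Tate classes of degree `2 r` on `A` belong to the system.

So the Tate conjecture for all powers of `A` follows from the Tate conjecture in codimension two for
`A × A` if there are at most five blocks, or if the sets `S j` are linearly independent over the field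
with two elements. In general only `A × A` in codimension two and `A` in codimension at most half of
the number of the blocks are needed.

**The proof.** The invariant tensors in the blocks `j_1, ..., j_d` are spanned by products, over the
factors `i`, of perfect matchings of the slots `k` with `S (j_k) i`. The exchanges of the `i`-th tensor
factor of two slots are obtained from invariants of degree four which are antisymmetric in the first
and in the last two variables (also between different blocks). If two slots belong to the same block,
then by exchanges one arrives at tensors which are invariant in these two slots: this uses that an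
invariant which is symmetric in all the slots of one factor vanishes (Casimir operator). If all slots
belong to different blocks, then the blocks form a set `N` as above, and the invariants are components
of alternating forms on `V` itself.
-/

namespace Pool.Agent.Results.MP_7b53ad_ag.TypeA1Powers

open Matrix Module Pool.Agent.W437.HC Pool.Agent.H841.TT

/-- The complex Lie algebra spanned by the matrices `X - c / 2`, where `X` belongs to `𝔤` and `c` is the
multiplier of `X` for the Weil pairing. -/
def sympLie {K : Type} [Field K] [Algebra K ℂ] {g : ℕ} (𝔤 : Set (Mt K g)) : Submodule ℂ (Mt ℂ g) :=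
  Submodule.span ℂ {Y | ∃ X ∈ 𝔤, ∃ c : K, Xᵀ * Om g K + Om g K * X = c • Om g K ∧
    Y = X.map (algebraMap K ℂ) - (algebraMap K ℂ c / 2) • 1}

/-- Type `A_1` with the pattern `S`: the space `V ⊗ ℂ` is the direct sum of the images of the projections
`p j` (the blocks), and `sympLie 𝔤` is the sum of Lie algebras `sl_2(ℂ)`, one for each `i : I`, which
commute with each other and with the projections; the factor `i` acts through
`ρ i : M_2(ℂ) → End(V ⊗ ℂ)`, as a multiple of the standard representation on the blocks `j` with `S j i`,
and by zero on the other blocks. -/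
def IsTypeA1 {K : Type} [Field K] [Algebra K ℂ] {g : ℕ} (𝔤 : Set (Mt K g)) {I J : Type} [Fintype J]
    (S : J → I → Prop) : Prop :=
  ∃ (ρ : I → Matrix (Fin 2) (Fin 2) ℂ →ₗ[ℂ] Mt ℂ g) (p : J → Mt ℂ g),
    ∑ j, p j = 1 ∧ (∀ j, p j * p j = p j) ∧ (∀ j j', j ≠ j' → p j * p j' = 0) ∧
    (∀ i X Y, ρ i (X * Y) = ρ i X * ρ i Y) ∧ (∀ i j X, ρ i X * p j = p j * ρ i X) ∧
    (∀ i j, S j i → ρ i 1 * p j = p j) ∧ (∀ i j, ¬ S j i → ρ i 1 * p j = 0) ∧
    (∀ i i', i ≠ i' → ∀ X Y, ρ i X * ρ i' Y = ρ i' Y * ρ i X) ∧
    sympLie 𝔤 = Submodule.span ℂ {M | ∃ i X, Matrix.trace X = 0 ∧ M = ρ i X}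

section aux

variable {K : Type} [Field K] {g : ℕ}

/-- Tate classes are stable under pull-backs. -/
theorem isTate_pull {𝔤 : Set (Mt K g)} {ι ι' : Type} [Fintype ι'] (M : Matrix ι ι' ℤ) {r : ℕ}
    {f : Coh K g ι (Fin (2 * r))} (hf : IsTate 𝔤 f) :
    IsTate 𝔤 (f.compLinearMap (homM M)) := by
  intro X hX c hc v
  have h1 := hf X hX c hc fun k => homM M (v k)
  have h2 : ∀ k, (f.compLinearMap (homM M)) (Function.update v k fun i => X *ᵥ v k i) =
      f (Function.update (fun k => homM M (v k)) k fun i => X *ᵥ (homM M (v k)) i) := by
    intro k
    change f (fun l => homM M (Function.update v k (fun i => X *ᵥ v k i) l)) = _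
    congr 1
    funext l
    by_cases hl : l = k
    · subst hl
      rw [Function.update_self, Function.update_self]
      funext i
      unfold homM
      rw [LinearMap.pi_apply, LinearMap.pi_apply, LinearMap.sum_apply, LinearMap.sum_apply,
        Matrix.mulVec_sum]
      refine Finset.sum_congr rfl fun j _ => ?_
      change (M i j : K) • (X *ᵥ v l j) = X *ᵥ ((M i j : K) • v l j)
      rw [Matrix.mulVec_smul]
    · rw [Function.update_of_ne hl, Function.update_of_ne hl]
  rw [Finset.sum_congr rfl fun k _ => h2 k, h1]
  rfl

/-- Classes on `A` from classes on `A × A`. -/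
theorem one_of_two {𝔤 : Set (Mt K g)} (𝒜 : TSys K g 𝔤) {r : ℕ}
    (h2 : ∀ f : (Fin 2 → VV K g) [⋀^Fin (2 * r)]→ₗ[K] K, IsTate 𝔤 f →
      𝒜.A (Fin 2) (Fin (2 * r)) f)
    (f : (Fin 1 → VV K g) [⋀^Fin (2 * r)]→ₗ[K] K) (hf : IsTate 𝔤 f) :
    𝒜.A (Fin 1) (Fin (2 * r)) f := by
  let M : Matrix (Fin 1) (Fin 2) ℤ := !![1, 0]
  let M' : Matrix (Fin 2) (Fin 1) ℤ := !![1; 0]
  have h3 := 𝒜.pull M' _ (h2 _ (isTate_pull M hf))
  have h4 : (f.compLinearMap (homM M)).compLinearMap (homM M') = f := by
    ext v
    change f (fun k => homM M (homM M' (v k))) = f v
    congr 1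
    funext k i
    have hi : i = 0 := Subsingleton.elim _ _
    subst hi
    unfold homM
    simp [M, M', Fin.sum_univ_two]
  rwa [h4] at h3

end aux

/-- All Tate classes of degree `2 r` on `A ^ n` belong to the system `𝒜`. -/
def TateIn {K : Type} [Field K] {g : ℕ} {𝔤 : Set (Mt K g)} (𝒜 : TSys K g 𝔤) (n r : ℕ) : Prop :=
  ∀ f : Coh K g (Fin n) (Fin (2 * r)), IsTate 𝔤 f → 𝒜.A (Fin n) (Fin (2 * r)) f

open Classical in
/-- **The Tate conjecture for the powers of abelian varieties of type `A_1`.** It is equivalent to the
algebraicity of the Tate classes of degree four on `A × A` and of the Tate classes on `A` whose degree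
`2 r ≥ 6` is the number of elements of a set of blocks in which every factor occurs an even number of
times. -/
theorem result (K : Type) [Field K] [Algebra K ℂ] (g : ℕ) (𝔤 : Set (Mt K g))
    (hg : ∀ X ∈ 𝔤, ∃ c : K, Xᵀ * Om g K + Om g K * X = c • Om g K)
    (I J : Type) [Fintype I] [Fintype J] (S : J → I → Prop) (hA : IsTypeA1 𝔤 S)
    (𝒜 : TSys K g 𝔤) :
    (∀ n r : ℕ, TateIn 𝒜 n r) ↔
    TateIn 𝒜 2 2 ∧ ∀ (N : Finset J) (r : ℕ), 3 ≤ r → N.card = 2 * r →
      (∀ i : I, Even (N.filter fun j => S j i).card) → TateIn 𝒜 1 r := by
  constructor
  · intro h
    exact ⟨h 2 2, fun N r _ _ _ => h 1 r⟩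
  rintro ⟨h2, h1⟩ n r f hf
  obtain ⟨ρ, p, hsum, hidem, horth, hmul, hcp, hin, hout, hcomm, hlie⟩ := hA
  have hPT : Pool.Agent.H841.GP.PT (LL 𝔤) S ρ p :=
    { mul := hmul, comm := hcomm, idem := hidem, orth := horth, comm_p := hcp, one_in := hin
      one_out := hout, sum := hsum, lie := hlie }
  refine tate_of_square hPT hg 𝒜 h2 (fun N s hne hcard hN f hf => ?_) f hf
  rcases Nat.lt_or_ge s 3 with hs | hs
  · interval_cases s
    · exact absurd hcard (by rw [mul_zero]; exact (Finset.card_pos.2 hne).ne')
    · exact 𝒜.divisor f hf
    · exact one_of_two 𝒜 h2 f hf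
  · refine h1 N s hs hcard (fun i => hN i _ fun j => ?_) f hf
    rw [Finset.mem_filter]

end Pool.Agent.Results.MP_7b53ad_ag.TypeA1Powers
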